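import Pool.Agent.Helper4.TH.StD
import Pool.Agent.Helper16.W5.M_Trm

/-!
# Project TH, module Itr: iteration of the leading forms

Adapted from `Pool/Agent/Helper19/TL/M_Itr.lean`.
-/

set_option autoImplicit false

namespace Pool.Agent.Helper94.TH

open Pool.Agent.Helper4.TH Pool.Agent.Helper93.TLH
open Pool.Agent.Helper14.CV (Homog EqC act Tl)
open Pool.Agent.Helper28.WK (Tw evw)
open Pool.Agent.Helper14.W5 (e5 tr5 Fn5 Tm opL op5 mulL mulT sclL Gd mmL idL Wd5 Lw dX dY rY5 S5Trm S5Low0)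

private theorem hTrm5 : S5Trm := Pool.Agent.Helper16.W5.hTrm

section lists

variable {q q' : ℕ}

private theorem opL_nil : (opL [] : Module.End (ZMod 5) (Fn5 q q')) = 0 := rfl

private theorem opL_cons (t : Tm) (L : List Tm) : (opL (t :: L) : Module.End (ZMod 5) (Fn5 q q')) =
    ((t.1 : ℤ) : ZMod 5) • op5 t.2.1 t.2.2.1 t.2.2.2.1 t.2.2.2.2 + opL L := by
  unfold opL
  rw [List.map_cons, List.sum_cons]

private theorem opL_append (L L' : List Tm) :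
    (opL (L ++ L') : Module.End (ZMod 5) (Fn5 q q')) = opL L + opL L' := by
  unfold opL
  rw [List.map_append, List.sum_append]

private theorem opL_scl (n : ℤ) (L : List Tm) :
    (opL (sclL n L) : Module.End (ZMod 5) (Fn5 q q')) = ((n : ℤ) : ZMod 5) • opL L := by
  induction L with
  | nil => rw [show sclL n [] = [] from rfl, opL_nil, smul_zero]
  | cons t L ih =>
    rw [show sclL n (t :: L) = (n * t.1, t.2) :: sclL n L from rfl, opL_cons, opL_cons, ih, smul_add, smul_smul]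
    push_cast
    rfl

end lists

private theorem ndvd {a : ℤ} (h : a % 5 ≠ 0) : ¬ 5 ∣ a := fun h' => h (Int.emod_eq_zero_of_dvd h')

private theorem op5_mul {r s : ℕ} {t t' : Tm} (h : Gd t) (h' : Gd t') :
    (op5 t.2.1 t.2.2.1 t.2.2.2.1 t.2.2.2.2 * op5 t'.2.1 t'.2.2.1 t'.2.2.2.1 t'.2.2.2.2 :
      Module.End (ZMod 5) (Fn5 (5 ^ r) (5 ^ s))) =
    op5 (mulT t t').2.1 (mulT t t').2.2.1 (mulT t t').2.2.2.1 (mulT t t').2.2.2.2 := by
  apply LinearMap.ext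
  intro F
  exact (hTrm5 (ZMod 5) r s F).1 t.2.1 t.2.2.1 t.2.2.2.1 t.2.2.2.2 t'.2.1 t'.2.2.1 t'.2.2.2.1 t'.2.2.2.2
    (ndvd h.1) (ndvd h.2) (ndvd h'.1) (ndvd h'.2)

private theorem opL_mulT {r s : ℕ} {t : Tm} (h : Gd t) (L' : List Tm) (h' : ∀ t' ∈ L', Gd t') :
    (opL (L'.map fun t' => mulT t t') : Module.End (ZMod 5) (Fn5 (5 ^ r) (5 ^ s))) =
    (((t.1 : ℤ) : ZMod 5) • op5 t.2.1 t.2.2.1 t.2.2.2.1 t.2.2.2.2) * opL L' := by
  induction L' with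
  | nil => rw [List.map_nil, opL_nil, mul_zero]
  | cons a L' ih =>
    rw [List.map_cons, opL_cons, opL_cons, ih (fun t' ht' => h' t' (List.mem_cons_of_mem _ ht')), mul_add,
      smul_mul_smul_comm, op5_mul h (h' a List.mem_cons_self)]
    have e : (((mulT t a).1 : ℤ) : ZMod 5) = ((t.1 : ℤ) : ZMod 5) * ((a.1 : ℤ) : ZMod 5) := by
      unfold mulT
      push_cast
      rfl
    rw [e]

private theorem opL_mul {r s : ℕ} (L L' : List Tm) (h : ∀ t ∈ L, Gd t) (h' : ∀ t' ∈ L', Gd t') :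
    (opL (mulL L L') : Module.End (ZMod 5) (Fn5 (5 ^ r) (5 ^ s))) = opL L * opL L' := by
  induction L with
  | nil => exact (zero_mul _).symm
  | cons a L ih =>
    have e : mulL (a :: L) L' = (L'.map fun t' => mulT a t') ++ mulL L L' := rfl
    rw [e, opL_append, opL_mulT (h a List.mem_cons_self) L' h', ih (fun t ht => h t (List.mem_cons_of_mem _ ht)),
      opL_cons, add_mul]

private theorem gdT3 : ∀ i f : Fin 2, ∀ t ∈ T3H i f, Gd t := by decide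

private theorem gdT7 : ∀ i f : Fin 2, ∀ t ∈ T7H i f, Gd t := by decide

private theorem gdT13 : ∀ i f : Fin 2, ∀ t ∈ T13H i f, Gd t := by decide

private theorem mm_apply {r s : ℕ} (A B : Fin 2 → Fin 2 → List Tm) (hA : ∀ i f, ∀ t ∈ A i f, Gd t)
    (hB : ∀ i f, ∀ t ∈ B i f, Gd t) (F : Fin 2 → Fn5 (5 ^ r) (5 ^ s)) (i : Fin 2) :
    ∑ g : Fin 2, opL (A i g) (∑ f : Fin 2, opL (B g f) (F f)) = ∑ f : Fin 2, opL (mmL A B i f) (F f) := by
  simp only [Fin.sum_univ_two, mmL, opL_append, opL_mul _ _ (hA _ _) (hB _ _), LinearMap.add_apply,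
    Module.End.mul_apply, map_add]
  abel

private theorem op5_one {r s : ℕ} (F : Fn5 (5 ^ r) (5 ^ s)) : op5 1 0 0 1 F = F :=
  (hTrm5 (ZMod 5) r s F).2.1

private theorem id_apply' {r s : ℕ} (c : ℤ) (F : Fin 2 → Fn5 (5 ^ r) (5 ^ s)) (i : Fin 2) :
    ∑ f : Fin 2, opL (idL c i f) (F f) = ((c : ℤ) : ZMod 5) • F i := by
  have h1 : ∀ f, opL (idL c f f) (F f) = ((c : ℤ) : ZMod 5) • F f := by
    intro f
    rw [show idL c f f = [(c, 1, 0, 0, 1)] from if_pos rfl, opL_cons, opL_nil, add_zero, LinearMap.smul_apply,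
      op5_one]
  have h2 : ∀ f g, f ≠ g → opL (idL c f g) (F g) = 0 := by
    intro f g hfg
    rw [show idL c f g = [] from if_neg hfg, opL_nil, LinearMap.zero_apply]
  fin_cases i
  · show ∑ f : Fin 2, opL (idL c 0 f) (F f) = _
    rw [Fin.sum_univ_two, h1 0, h2 0 1 (by decide), add_zero]
    rfl
  · show ∑ f : Fin 2, opL (idL c 1 f) (F f) = _
    rw [Fin.sum_univ_two, h1 1, h2 1 0 (by decide), zero_add]
    rfl

section

variable {r s : ℕ}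

/-- the two functions -/
private noncomputable def P (r s : ℕ) (G : ℤ → ℤ → ZMod 5) (f : Fin 2) : Fn5 (5 ^ r) (5 ^ s) := pfH G f

private theorem P_add (G H : ℤ → ℤ → ZMod 5) (f : Fin 2) : P r s (G + H) f = P r s G f + P r s H f := by
  funext x y
  simp only [P, pfH, edgeH, Pi.add_apply]
  ring

private theorem P_sub (G H : ℤ → ℤ → ZMod 5) (f : Fin 2) : P r s (G - H) f = P r s G f - P r s H f := by
  funext x y
  simp only [P, pfH, edgeH, Pi.sub_apply]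
  ring

private theorem P_smul (n : ℤ) (G : ℤ → ℤ → ZMod 5) (f : Fin 2) :
    P r s (n • G) f = ((n : ℤ) : ZMod 5) • P r s G f := by
  funext x y
  simp only [P, pfH, edgeH, Pi.smul_apply, smul_eq_mul, zsmul_eq_mul]
  ring

private theorem symT (hb : THkB) (l : ℕ) (hl : l.Prime) (h5 : l ≠ 5) (h2 : l ≠ 2)
    {G : ℤ → ℤ → ZMod 5} (hG : SymH 5 r (s + 1) G) : SymH 5 r (s + 1) (Tl l (5 ^ r) G) :=
  (hb (ZMod 5) _ r (s + 1) l G hl h5 h2 hG).1

private theorem sym3 (hb : THkB) {G : ℤ → ℤ → ZMod 5} (hG : SymH 5 r (s + 1) G) :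
    SymH 5 r (s + 1) (Tl 3 (5 ^ r) G) := symT hb 3 (by norm_num) (by norm_num) (by norm_num) hG

private theorem sym7 (hb : THkB) {G : ℤ → ℤ → ZMod 5} (hG : SymH 5 r (s + 1) G) :
    SymH 5 r (s + 1) (Tl 7 (5 ^ r) G) := symT hb 7 (by norm_num) (by norm_num) (by norm_num) hG

private theorem sym11 (hb : THkB) {G : ℤ → ℤ → ZMod 5} (hG : SymH 5 r (s + 1) G) :
    SymH 5 r (s + 1) (Tl 11 (5 ^ r) G) := symT hb 11 (by norm_num) (by norm_num) (by norm_num) hG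

private theorem sym13 (hb : THkB) {G : ℤ → ℤ → ZMod 5} (hG : SymH 5 r (s + 1) G) :
    SymH 5 r (s + 1) (Tl 13 (5 ^ r) G) := symT hb 13 (by norm_num) (by norm_num) (by norm_num) hG

private theorem P3 (h3 : THk3) {G : ℤ → ℤ → ZMod 5} (hG : SymH 5 r (s + 1) G) (i : Fin 2) :
    P r s (Tl 3 (5 ^ r) G) i = ∑ f : Fin 2, opL (T3H i f) (P r s G f) := h3 r s G hG i

private theorem P7 (h7 : THk7) {G : ℤ → ℤ → ZMod 5} (hG : SymH 5 r (s + 1) G) (i : Fin 2) :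
    P r s (Tl 7 (5 ^ r) G) i = ∑ f : Fin 2, opL (T7H i f) (P r s G f) := h7 r s G hG i

private theorem P11 (h11 : THk11) {G : ℤ → ℤ → ZMod 5} (hG : SymH 5 r (s + 1) G) (i : Fin 2) :
    P r s (Tl 11 (5 ^ r) G) i = ∑ f : Fin 2, opL (T11H i f) (P r s G f) := h11 r s G hG i

private theorem P13 (h13 : THk13) {G : ℤ → ℤ → ZMod 5} (hG : SymH 5 r (s + 1) G) (i : Fin 2) :
    P r s (Tl 13 (5 ^ r) G) i = ∑ f : Fin 2, opL (T13H i f) (P r s G f) := h13 r s G hG i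

private theorem P33 (hb : THkB) (h3 : THk3) {G : ℤ → ℤ → ZMod 5} (hG : SymH 5 r (s + 1) G)
    (i : Fin 2) : P r s (Tl 3 (5 ^ r) (Tl 3 (5 ^ r) G)) i =
      ∑ f : Fin 2, opL (mmL T3H T3H i f) (P r s G f) := by
  rw [P3 h3 (sym3 hb hG) i, ← mm_apply T3H T3H gdT3 gdT3 (P r s G) i]
  simp_rw [P3 h3 hG]

private theorem P313 (hb : THkB) (h3 : THk3) (h13 : THk13) {G : ℤ → ℤ → ZMod 5}
    (hG : SymH 5 r (s + 1) G) (i : Fin 2) :
    P r s (Tl 3 (5 ^ r) (Tl 13 (5 ^ r) G)) i = ∑ f : Fin 2, opL (mmL T3H T13H i f) (P r s G f) := by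
  rw [P3 h3 (sym13 hb hG) i, ← mm_apply T3H T13H gdT3 gdT13 (P r s G) i]
  simp_rw [P13 h13 hG]

private theorem P77 (hb : THkB) (h7 : THk7) {G : ℤ → ℤ → ZMod 5} (hG : SymH 5 r (s + 1) G)
    (i : Fin 2) : P r s (Tl 7 (5 ^ r) (Tl 7 (5 ^ r) G)) i =
      ∑ f : Fin 2, opL (mmL T7H T7H i f) (P r s G f) := by
  rw [P7 h7 (sym7 hb hG) i, ← mm_apply T7H T7H gdT7 gdT7 (P r s G) i]
  simp_rw [P7 h7 hG]

private theorem symU (hb : THkB) {G : ℤ → ℤ → ZMod 5} (hG : SymH 5 r (s + 1) G) :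
    SymH 5 r (s + 1) (UoH (5 ^ r) G) := SymH.add (sym3 hb (sym3 hb hG)) (SymH.smul _ (sym11 hb hG))

private theorem symSub {G H : ℤ → ℤ → ZMod 5} (hG : SymH 5 r (s + 1) G) (hH : SymH 5 r (s + 1) H) :
    SymH 5 r (s + 1) (G - H) := by
  rw [sub_eq_add_neg]
  exact SymH.add hG (SymH.neg hH)

private theorem symV (hb : THkB) {G : ℤ → ℤ → ZMod 5} (hG : SymH 5 r (s + 1) G) :
    SymH 5 r (s + 1) (VoH (5 ^ r) G) :=
  symSub (symSub (symSub (SymH.add (sym3 hb (sym13 hb hG)) (sym3 hb (sym3 hb hG)))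
    (sym7 hb (sym7 hb hG))) (sym11 hb hG)) hG

private theorem PU (hb : THkB) (h3 : THk3) (h11 : THk11) {G : ℤ → ℤ → ZMod 5}
    (hG : SymH 5 r (s + 1) G) (i : Fin 2) :
    P r s (UoH (5 ^ r) G) i = ∑ f : Fin 2, opL (ULH i f) (P r s G f) := by
  have e1 : P r s (UoH (5 ^ r) G) i = P r s (Tl 3 (5 ^ r) (Tl 3 (5 ^ r) G)) i +
      ((2 : ℤ) : ZMod 5) • P r s (Tl 11 (5 ^ r) G) i := by
    unfold UoH
    rw [P_add, P_smul]
  rw [e1, P33 hb h3 hG i, P11 h11 hG i]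
  simp only [ULH, opL_append, opL_scl, LinearMap.add_apply, LinearMap.smul_apply, Finset.sum_add_distrib,
    ← Finset.smul_sum]

private theorem PV (hb : THkB) (h3 : THk3) (h7 : THk7) (h11 : THk11) (h13 : THk13)
    {G : ℤ → ℤ → ZMod 5} (hG : SymH 5 r (s + 1) G) (i : Fin 2) :
    P r s (VoH (5 ^ r) G) i = ∑ f : Fin 2, opL (VLH i f) (P r s G f) := by
  have e := id_apply' (-1) (P r s G) i
  have e1 : P r s (VoH (5 ^ r) G) i = P r s (Tl 3 (5 ^ r) (Tl 13 (5 ^ r) G)) i +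
      P r s (Tl 3 (5 ^ r) (Tl 3 (5 ^ r) G)) i - P r s (Tl 7 (5 ^ r) (Tl 7 (5 ^ r) G)) i -
      P r s (Tl 11 (5 ^ r) G) i - P r s G i := by
    unfold VoH
    rw [P_sub, P_sub, P_sub, P_add]
  rw [e1, P313 hb h3 h13 hG i, P33 hb h3 hG i, P77 hb h7 hG i, P11 h11 hG i]
  simp only [VLH, opL_append, opL_scl, LinearMap.add_apply, LinearMap.smul_apply, Finset.sum_add_distrib,
    ← Finset.smul_sum]
  rw [e]
  push_cast
  simp only [neg_smul, one_smul]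
  abel

private theorem PA (h7 : THk7) {G : ℤ → ℤ → ZMod 5} (hG : SymH 5 r (s + 1) G) :
    P r s (Tl 7 (5 ^ r) G - (3 : ℤ) • G) 0 = ∑ f : Fin 2, opL (OAH f) (P r s G f) := by
  have e := id_apply' (-3) (P r s G) 0
  rw [P_sub, P_smul, P7 h7 hG 0]
  simp only [OAH, opL_append, LinearMap.add_apply, Finset.sum_add_distrib]
  rw [e]
  push_cast
  rw [neg_smul]
  abel

private theorem PB (h11 : THk11) {G : ℤ → ℤ → ZMod 5} (hG : SymH 5 r (s + 1) G) :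
    P r s (Tl 11 (5 ^ r) G - (2 : ℤ) • G) 0 = ∑ f : Fin 2, opL (OBH f) (P r s G f) := by
  have e := id_apply' (-2) (P r s G) 0
  rw [P_sub, P_smul, P11 h11 hG 0]
  simp only [OBH, opL_append, LinearMap.add_apply, Finset.sum_add_distrib]
  rw [e]
  push_cast
  rw [neg_smul]
  abel

private theorem lw_pow (hl : S5Low0) {O : Module.End (ZMod 5) (Fn5 (5 ^ r) (5 ^ s))} {k : ℤ} (hO : Lw O k) (n : ℕ) :
    Lw (O ^ n) (k * n) := by
  obtain ⟨hm, -, -, -, -, h1, -⟩ := hl r s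
  induction n with
  | zero => simpa using h1
  | succ n ih =>
    rw [pow_succ]
    have := hm _ _ _ _ ih hO
    rwa [show k * n + k = k * (n + 1 : ℕ) by push_cast; ring] at this

private theorem lw_Qo (hl : S5Low0) : Lw (QoH : Module.End (ZMod 5) (Fn5 (5 ^ r) (5 ^ s))) 2 := by
  obtain ⟨hm, -, hc, -, -, -, hx, hy, -⟩ := hl r s
  have h1 := hc _ 4 _ (hm _ _ _ _ hx hy)
  norm_num at h1
  exact h1

private theorem lw_Lo (hl : S5Low0) : Lw (LoH : Module.End (ZMod 5) (Fn5 (5 ^ r) (5 ^ s))) 6 := by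
  obtain ⟨hm, ha, hc, -, -, -, hx, hy, -⟩ := hl r s
  have x4 := lw_pow hl hx 4
  have y4 := lw_pow hl hy 4
  have x2 := lw_pow hl hx 2
  have y2 := lw_pow hl hy 2
  have x2y2 := hm _ _ _ _ x2 y2
  norm_num at x4 y4 x2y2
  have h := hc _ 4 _ (hm _ _ _ _ (hm _ _ _ _ hx hy) (ha _ _ _ (ha _ _ _ x4 x2y2) y4))
  norm_num at h
  exact h

private theorem lw_Ma (hl : S5Low0) : Lw (MaH : Module.End (ZMod 5) (Fn5 (5 ^ r) (5 ^ s))) 2 := by
  obtain ⟨-, ha, hc, -, -, -, hx, hy, -⟩ := hl r s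
  have x2 := lw_pow hl hx 2
  norm_num at x2
  exact hc _ 2 _ x2

private theorem lw_Mb (hl : S5Low0) : Lw (MbH : Module.End (ZMod 5) (Fn5 (5 ^ r) (5 ^ s))) 2 := by
  obtain ⟨-, ha, hc, -, -, -, hx, hy, -⟩ := hl r s
  have x2 := lw_pow hl hx 2
  have y2 := lw_pow hl hy 2
  norm_num at x2 y2
  exact hc _ 4 _ (ha _ _ _ x2 y2)

private theorem lw_Mc (hl : S5Low0) : Lw (McH : Module.End (ZMod 5) (Fn5 (5 ^ r) (5 ^ s))) 4 := by
  obtain ⟨hm, ha, hc, -, -, -, hx, hy, -⟩ := hl r s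
  have x2 := lw_pow hl hx 2
  have y2 := lw_pow hl hy 2
  have x3 := lw_pow hl hx 3
  have y3 := lw_pow hl hy 3
  have h1 := hc _ 2 _ (hm _ _ _ _ x3 hy)
  have h2 := hc _ 3 _ (hm _ _ _ _ hx y3)
  have h3 := hc _ 2 _ (hm _ _ _ _ x2 y2)
  norm_num at h1 h2 h3
  exact ha _ _ _ (ha _ _ _ h1 h2) h3

private theorem stepL (hl : S5Low0) {O : Module.End (ZMod 5) (Fn5 (5 ^ r) (5 ^ s))} {k e : ℤ} (hO : Lw O k)
    {F H F' : Fn5 (5 ^ r) (5 ^ s)} (hF : F ∈ Wd5 e) (hH : F - H ∈ Wd5 (e - 1)) (hF' : F' - O F ∈ Wd5 (e - k - 1)) :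
    F' ∈ Wd5 (e - k) ∧ F' - O H ∈ Wd5 (e - k - 1) := by
  have hmono := (hl r s).2.2.2.2.1
  have h1 : O F ∈ Wd5 (e - k) := hO e F hF
  have h2 : O (F - H) ∈ Wd5 (e - k - 1) := by
    have := hO (e - 1) _ hH
    rwa [show e - 1 - k = e - k - 1 by ring] at this
  constructor
  · have h3 := Submodule.add_mem _ (hmono _ _ (by linarith) hF') h1
    rwa [sub_add_cancel] at h3
  · have h3 := Submodule.add_mem _ hF' h2
    rwa [map_sub, sub_add_sub_cancel] at h3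

/-- the state -/
private def St (r s : ℕ) (e : ℤ) (G : ℤ → ℤ → ZMod 5) (H : Fin 2 → Fn5 (5 ^ r) (5 ^ s)) : Prop :=
  SymH 5 r (s + 1) G ∧ ∀ f : Fin 2, P r s G f ∈ Wd5 e ∧ P r s G f - H f ∈ Wd5 (e - 1)

private theorem stU (hr : TRel) (hb : THkB) (h3 : THk3) (h11 : THk11) (hl : S5Low0) (hu : TLdU)
    {e : ℤ} {G : ℤ → ℤ → ZMod 5} {H : Fin 2 → Fn5 (5 ^ r) (5 ^ s)} (h : St r s e G H) :
    St r s (e - 2) (UoH (5 ^ r) G) (fun f => QoH (H f)) := by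
  obtain ⟨hG, hF⟩ := h
  have hR : RelH (P r s G) := hr (ZMod 5) _ r s G hG
  refine ⟨symU hb hG, fun f => ?_⟩
  have l1 := hu r s e (P r s G) hR (hF 0).1 (hF 1).1 f
  rw [← PU hb h3 h11 hG f, show e - 3 = e - 2 - 1 by ring] at l1
  exact stepL hl (lw_Qo hl) (hF f).1 (hF f).2 l1

private theorem stV (hr : TRel) (hb : THkB) (h3 : THk3) (h7 : THk7) (h11 : THk11) (h13 : THk13)
    (hl : S5Low0) (hv : TLdV)
    {e : ℤ} {G : ℤ → ℤ → ZMod 5} {H : Fin 2 → Fn5 (5 ^ r) (5 ^ s)} (h : St r s e G H) :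
    St r s (e - 6) (VoH (5 ^ r) G) (fun f => LoH (H f)) := by
  obtain ⟨hG, hF⟩ := h
  have hR : RelH (P r s G) := hr (ZMod 5) _ r s G hG
  refine ⟨symV hb hG, fun f => ?_⟩
  have l1 := hv r s e (P r s G) hR (hF 0).1 (hF 1).1 f
  rw [← PV hb h3 h7 h11 h13 hG f, show e - 7 = e - 6 - 1 by ring] at l1
  exact stepL hl (lw_Lo hl) (hF f).1 (hF f).2 l1

private theorem itU (hr : TRel) (hb : THkB) (h3 : THk3) (h11 : THk11) (hl : S5Low0) (hu : TLdU)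
    {e : ℤ} {G : ℤ → ℤ → ZMod 5} {H : Fin 2 → Fn5 (5 ^ r) (5 ^ s)} (h : St r s e G H) (i : ℕ) :
    St r s (e - 2 * i) ((UoH (5 ^ r))^[i] G)
      (fun f => (QoH ^ i : Module.End (ZMod 5) (Fn5 (5 ^ r) (5 ^ s))) (H f)) := by
  induction i with
  | zero => simpa using h
  | succ i ih =>
    have h4 := stU hr hb h3 h11 hl hu ih
    have hp : (QoH ^ (i + 1) : Module.End (ZMod 5) (Fn5 (5 ^ r) (5 ^ s))) = QoH * QoH ^ i := pow_succ' _ _
    have e2 : e - 2 * ((i + 1 : ℕ) : ℤ) = e - 2 * i - 2 := by push_cast; ring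
    rw [Function.iterate_succ_apply', hp, e2]
    exact h4

private theorem itV (hr : TRel) (hb : THkB) (h3 : THk3) (h7 : THk7) (h11 : THk11) (h13 : THk13)
    (hl : S5Low0) (hv : TLdV)
    {e : ℤ} {G : ℤ → ℤ → ZMod 5} {H : Fin 2 → Fn5 (5 ^ r) (5 ^ s)} (h : St r s e G H) (j : ℕ) :
    St r s (e - 6 * j) ((VoH (5 ^ r))^[j] G)
      (fun f => (LoH ^ j : Module.End (ZMod 5) (Fn5 (5 ^ r) (5 ^ s))) (H f)) := by
  induction j with
  | zero => simpa using h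
  | succ j ih =>
    have h4 := stV hr hb h3 h7 h11 h13 hl hv ih
    have hp : (LoH ^ (j + 1) : Module.End (ZMod 5) (Fn5 (5 ^ r) (5 ^ s))) = LoH * LoH ^ j := pow_succ' _ _
    have e2 : e - 6 * ((j + 1 : ℕ) : ℤ) = e - 6 * j - 6 := by push_cast; ring
    rw [Function.iterate_succ_apply', hp, e2]
    exact h4

private theorem P_zero (G : ℤ → ℤ → ZMod 5) : P r s G 0 0 0 = G 1 0 - G 0 1 := by
  have hY : rY5 0 (0 : ZMod (5 ^ r)) (0 : ZMod (5 ^ s)) = 0 := by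
    unfold rY5
    simp
  have hy : yH (0 : ZMod (5 ^ r)) (0 : ZMod (5 ^ s)) = 0 := by
    unfold yH
    rw [hY, if_pos (dvd_zero _)]
  have hX : (((0 : ZMod (5 ^ r)).val : ℕ) : ℤ) = 0 := by simp
  unfold P pfH edgeH
  rw [hy, hX]
  simp [e5]

end

/-- **ITR.** -/
theorem hItr (hr : TRel) (hb : THkB) (h3 : THk3) (h7 : THk7) (h11 : THk11) (h13 : THk13)
    (hl : S5Low0) (hu : TLdU) (hv : TLdV) (ha : TOmA) (ho : TOmB) : TItr := by
  intro r s G d hG hF0 hF1 i j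
  have hmono := (hl r s).2.2.2.2.1
  have hz : ∀ F : Fn5 (5 ^ r) (5 ^ s), F ∈ Wd5 (-1) → F = 0 :=
    (hl r s).2.2.2.2.2.2.2.2.2.2.2.2.2
  have h0 : St r s (d : ℤ) G (P r s G) := by
    refine ⟨hG, fun f => ?_⟩
    rw [sub_self]
    refine ⟨?_, Submodule.zero_mem _⟩
    fin_cases f
    · exact hF0
    · exact hF1
  have hK := itU hr hb h3 h11 hl hu (itV hr hb h3 h7 h11 h13 hl hv h0 j) i
  set K : ℤ → ℤ → ZMod 5 := (UoH (5 ^ r))^[i] ((VoH (5 ^ r))^[j] G) with hKd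
  obtain ⟨kG, kF⟩ := hK
  obtain ⟨k0, kH0⟩ := kF 0
  obtain ⟨k1, kH1⟩ := kF 1
  have kR : RelH (P r s K) := hr (ZMod 5) _ r s K kG
  have ev2 : evH (5 ^ r) G 2 i j = P r s K 0 0 0 := by
    rw [P_zero]
    rfl
  have ev0 : (d : ℤ) - 6 * j - 2 * i ≤ 2 →
      evH (5 ^ r) G 0 i j = MaH (P r s K 0) 0 0 + MbH (P r s K 1) 0 0 := by
    intro h4
    have e1 : evH (5 ^ r) G 0 i j = P r s (Tl 7 (5 ^ r) K - (3 : ℤ) • K) 0 0 0 := by
      rw [P_zero]
      rfl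
    rw [e1, PA h7 kG]
    exact ha r s (P r s K) kR (hmono _ _ h4 k0) (hmono _ _ h4 k1)
  have ev1 : (d : ℤ) - 6 * j - 2 * i ≤ 4 → evH (5 ^ r) G 1 i j = McH (P r s K 0) 0 0 := by
    intro h4
    have e1 : evH (5 ^ r) G 1 i j = P r s (Tl 11 (5 ^ r) K - (2 : ℤ) • K) 0 0 0 := by
      rw [P_zero]
      rfl
    rw [e1, PB h11 kG]
    exact ho r s (P r s K) kR (hmono _ _ h4 k0) (hmono _ _ h4 k1)
  refine ⟨fun hlt => ?_, fun heq => ?_, fun hlt => ?_, fun heq => ?_, fun hlt => ?_, fun heq => ?_⟩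
  · have h1 := hz _ (hmono _ (-1) (by
      have : (d : ℤ) < 2 * i + 6 * j := by exact_mod_cast hlt
      linarith) k0)
    rw [ev2, h1]
    rfl
  · have h1 := hz _ (hmono _ (-1) (by
      have : (2 * i + 6 * j : ℤ) = d := by exact_mod_cast heq
      linarith) kH0)
    rw [ev2, sub_eq_zero.1 h1]
    rfl
  · have hlt' : (d : ℤ) < 2 * i + 6 * j + 2 := by exact_mod_cast hlt
    have h1 := hz _ (hmono _ (-1) (by linarith) (lw_Ma hl _ _ k0))
    have h2 := hz _ (hmono _ (-1) (by linarith) (lw_Mb hl _ _ k1))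
    rw [ev0 (by linarith), h1, h2]
    exact add_zero _
  · have heq' : (2 * i + 6 * j + 2 : ℤ) = d := by exact_mod_cast heq
    have h1 := hz _ (hmono _ (-1) (by linarith) (lw_Ma hl _ _ kH0))
    have h2 := hz _ (hmono _ (-1) (by linarith) (lw_Mb hl _ _ kH1))
    rw [map_sub] at h1 h2
    rw [ev0 (by linarith), sub_eq_zero.1 h1, sub_eq_zero.1 h2]
    rfl
  · have hlt' : (d : ℤ) < 2 * i + 6 * j + 4 := by exact_mod_cast hlt
    have h1 := hz _ (hmono _ (-1) (by linarith) (lw_Mc hl _ _ k0))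
    rw [ev1 (by linarith), h1]
    rfl
  · have heq' : (2 * i + 6 * j + 4 : ℤ) = d := by exact_mod_cast heq
    have h1 := hz _ (hmono _ (-1) (by linarith) (lw_Mc hl _ _ kH0))
    rw [map_sub] at h1
    rw [ev1 (by linarith), sub_eq_zero.1 h1]
    rfl

end Pool.Agent.Helper94.TH
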